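import Pool.Agent.Helper26_BSN.Defs2

/-! Squad BSN, module DOM: domination of Skolem functions (helper46). -/

namespace Pool.Agent.BSN.H46

open Filter Pool.Agent.BSig Pool.Agent.BSN

theorem evp_append (l : List Bool) (b : Bool) (x : ℕ) :
    evp (l ++ [b]) x = evp l ((if b then rt else lf) x) := by
  induction l with
  | nil => rfl
  | cons c l ih =>
    show (if c then rt else lf) (evp (l ++ [b]) x) = (if c then rt else lf) (evp l _)
    rw [ih]

theorem evp_le (h1 : ∀ x, lf x ≤ x) (h2 : ∀ x, rt x ≤ x) (l : List Bool) (x : ℕ) :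
    evp l x ≤ x := by
  induction l with
  | nil => exact le_refl _
  | cons c l ih =>
    show (if c then rt else lf) (evp l x) ≤ x
    cases c
    · exact (h1 _).trans ih
    · exact (h2 _).trans ih

/-- the path of the component number `t` -/
def proj (t : ℕ) : List Bool := false :: List.replicate t true

theorem evp_proj_zero (x : ℕ) : evp (proj 0) x = lf x := rfl

theorem evp_proj_succ (t x : ℕ) : evp (proj (t + 1)) x = evp (proj t) (rt x) := by
  show (if false then rt else lf) (evp (List.replicate (t + 1) true) x)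
    = (if false then rt else lf) (evp (List.replicate t true) (rt x))
  rw [List.replicate_succ', evp_append]
  rfl

theorem evp_env (hN : NatStmt) {k : ℕ} (v : Fin k → ℕ) (t : Fin k) :
    evp (proj t) (env v) = v t := by
  induction k with
  | zero => exact t.elim0
  | succ k ih =>
    obtain ⟨h1, h2, -⟩ := hN
    refine Fin.cases ?_ (fun s => ?_) t
    · show lf (npr (v 0) (env (Fin.tail v))) = v 0
      exact h1 _ _
    · show evp (proj (s.val + 1)) (npr (v 0) (env (Fin.tail v))) = v s.succ
      rw [evp_proj_succ, h2, ih]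
      rfl

theorem sig_le {M : Type} [PAExp M] (h : ∀ (j k : ℕ) (P : (Fin k → M) → Prop), IsSigma j P →
    IsSigma (j + 1) P) {j j' : ℕ} (hj : j' ≤ j) {k : ℕ} {P : (Fin k → M) → Prop}
    (hP : IsSigma j' P) : IsSigma j P := by
  induction hj with
  | refl => exact hP
  | step _ ih => exact h _ _ _ ih

theorem dom (hS : SigClosed) (hC : CodeSigma) (hT : TVStmt) (hG : GGBasics) (hN : NatStmt) :
    DomStmt := by
  intro j j' hj i k Q hQ
  have hQ' : IsSigma j Q := sig_le (hS ℕ).2.1 hj hQ
  obtain ⟨E, hE⟩ := hC j (i + k) Q hQ'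
    (Fin.append (fun t : Fin i => proj t ++ [false]) (fun t : Fin k => proj t ++ [true]))
  refine ⟨E.code, fun v hv => ?_⟩
  have key : ∀ u : ℕ, (fun m : Fin (i + k) => evp ((Fin.append (fun t : Fin i => proj t ++ [false])
      (fun t : Fin k => proj t ++ [true]) : Fin (i + k) → List Bool) m) (npr u (env v)))
        = (Fin.append (fun t : Fin i => evp (proj t) u) v : Fin (i + k) → ℕ) := by
    intro u
    funext m
    refine Fin.addCases (fun t => ?_) (fun t => ?_) m
    · rw [Fin.append_left, Fin.append_left, evp_append]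
      show evp (proj t) (lf (npr u (env v))) = _
      rw [hN.1]
    · rw [Fin.append_right, Fin.append_right, evp_append]
      show evp (proj t) (rt (npr u (env v))) = _
      rw [hN.2.1, evp_env hN]
  obtain ⟨w, hw⟩ := hv
  have h1 : ¬ VV j E (npr (env w) (env v)) := by
    rw [hE, key]
    have e : (fun t : Fin i => evp (proj t) (env w)) = w := funext fun t => evp_env hN w t
    rw [e]
    exact hw
  have h2 : TT (j + 1) E.code (env v) := (hT.1 j E (env v)).2 ⟨env w, h1⟩
  obtain ⟨u, hu, hu2⟩ := hG.1 j (E.code + env v) E.code (env v) (Nat.le_add_right _ _)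
    (Nat.le_add_left _ _) h2
  obtain ⟨u1, hu1, hu3⟩ := hT.2 j E u (env v) hu2
  refine ⟨fun t => evp (proj t) u1, fun t => ?_, ?_⟩
  · exact (evp_le hN.2.2.1 hN.2.2.2.1 _ _).trans (hu1.trans hu)
  · rw [← key, ← hE]
    exact hu3

end Pool.Agent.BSN.H46
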