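import Pool.Agent.Helper26_BSN.Defs2

/-! Squad BSN, module ST0: extensions of bounded relations are bounded (helper46). -/

namespace Pool.Agent.BSN.H46

open Filter Pool.Agent.BSig Pool.Agent.BSN

variable {τ : Tower}

theorem rep_add (x y : MMt τ) : ∀ᶠ n in (UU : Filter ℕ), rep (x + y) n = rep x n + rep y n := by
  have h : x + y = mk (fun n => rep x n + rep y n) (bdd_add (bdd_rep x) (bdd_rep y)) := by
    conv_lhs => rw [← mk_rep x, ← mk_rep y, mk_add]
  rw [h]
  exact rep_mk _ _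

theorem rep_mul (x y : MMt τ) : ∀ᶠ n in (UU : Filter ℕ), rep (x * y) n = rep x n * rep y n := by
  have h : x * y = mk (fun n => rep x n * rep y n) (bdd_mul (bdd_rep x) (bdd_rep y)) := by
    conv_lhs => rw [← mk_rep x, ← mk_rep y, mk_mul]
  rw [h]
  exact rep_mk _ _

theorem rep_pow (x : MMt τ) : ∀ᶠ n in (UU : Filter ℕ), rep (PAExp.pow2 x) n = 2 ^ rep x n :=
  rep_mk _ (bdd_pow2 (bdd_rep x))

theorem eq_iff (x y : MMt τ) : x = y ↔ ∀ᶠ n in (UU : Filter ℕ), rep x n = rep y n := by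
  have h := mk_eq (f := rep x) (g := rep y) (hf := bdd_rep x) (hg := bdd_rep y)
  rwa [mk_rep, mk_rep] at h

theorem le_iff (x y : MMt τ) : x ≤ y ↔ ∀ᶠ n in (UU : Filter ℕ), rep x n ≤ rep y n := by
  have h := mk_le (f := rep x) (g := rep y) (hf := bdd_rep x) (hg := bdd_rep y)
  rwa [mk_rep, mk_rep] at h

theorem term_ext {k : ℕ} {f : (Fin k → ℕ) → ℕ} (h : IsTerm f) :
    ∃ F : (Fin k → MMt τ) → MMt τ, IsTerm F ∧ ∀ v, ∀ᶠ n in (UU : Filter ℕ),
      rep (F v) n = f (fun i => rep (v i) n) := by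
  induction h with
  | param c => exact ⟨fun _ => mk (fun _ => c) (bdd_const c), IsTerm.param _, fun v => rep_mk _ _⟩
  | var i => exact ⟨fun v => v i, IsTerm.var i, fun v => Eventually.of_forall fun n => rfl⟩
  | add _ _ ih1 ih2 =>
    obtain ⟨F1, t1, h1⟩ := ih1
    obtain ⟨F2, t2, h2⟩ := ih2
    refine ⟨fun v => F1 v + F2 v, IsTerm.add t1 t2, fun v => ?_⟩
    filter_upwards [rep_add (F1 v) (F2 v), h1 v, h2 v] with n e0 e1 e2
    rw [e0, e1, e2]
  | mul _ _ ih1 ih2 =>
    obtain ⟨F1, t1, h1⟩ := ih1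
    obtain ⟨F2, t2, h2⟩ := ih2
    refine ⟨fun v => F1 v * F2 v, IsTerm.mul t1 t2, fun v => ?_⟩
    filter_upwards [rep_mul (F1 v) (F2 v), h1 v, h2 v] with n e0 e1 e2
    rw [e0, e1, e2]
  | pow2 _ ih1 =>
    obtain ⟨F1, t1, h1⟩ := ih1
    refine ⟨fun v => PAExp.pow2 (F1 v), IsTerm.pow2 t1, fun v => ?_⟩
    filter_upwards [rep_pow (F1 v), h1 v] with n e0 e1
    rw [e0, e1]
    rfl

theorem congr {M : Type} [PAExp M] {k : ℕ} {P Q : (Fin k → M) → Prop} (h : IsDelta0 P)
    (e : ∀ v, Q v ↔ P v) : IsDelta0 Q := by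
  have : Q = P := funext fun v => propext (e v)
  rw [this]
  exact h

theorem rep_cons {k : ℕ} (x : MMt τ) (v : Fin k → MMt τ) (n : ℕ) :
    (fun i => rep ((Fin.cons x v : Fin (k + 1) → MMt τ) i) n)
      = (Fin.cons (rep x n) (fun i => rep (v i) n) : Fin (k + 1) → ℕ) := by
  funext i
  refine Fin.cases ?_ (fun j => ?_) i
  · rfl
  · rfl

theorem st0 : Star0 := by
  intro τ k S h
  induction h with
  | eq h1 h2 =>
    obtain ⟨F1, t1, e1⟩ := term_ext (τ := τ) h1
    obtain ⟨F2, t2, e2⟩ := term_ext (τ := τ) h2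
    refine congr (IsDelta0.eq t1 t2) fun v => ?_
    rw [eq_iff]
    refine eventually_congr ?_
    filter_upwards [e1 v, e2 v] with n a1 a2
    rw [a1, a2]
  | le h1 h2 =>
    obtain ⟨F1, t1, e1⟩ := term_ext (τ := τ) h1
    obtain ⟨F2, t2, e2⟩ := term_ext (τ := τ) h2
    refine congr (IsDelta0.le t1 t2) fun v => ?_
    rw [le_iff]
    refine eventually_congr ?_
    filter_upwards [e1 v, e2 v] with n a1 a2
    rw [a1, a2]
  | not _ ih =>
    refine congr (IsDelta0.not ih) fun v => ?_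
    unfold starR
    rw [Ultrafilter.eventually_not]
  | and _ _ ih1 ih2 =>
    refine congr (IsDelta0.and ih1 ih2) fun v => ?_
    unfold starR
    rw [eventually_and]
  | @ball k f Q hf _ ih =>
    obtain ⟨F, t, e⟩ := term_ext (τ := τ) hf
    refine congr (IsDelta0.ball t ih) fun v => ?_
    constructor
    · intro h x hx
      rw [le_iff] at hx
      show ∀ᶠ n in (UU : Filter ℕ), Q (fun i => rep ((Fin.cons x v : Fin (k + 1) → MMt τ) i) n)
      filter_upwards [h, hx, e v] with n h1 h2 h3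
      rw [rep_cons]
      refine h1 _ ?_
      rw [h3] at h2
      exact h2
    · intro h
      by_contra hc
      have hc' : ¬ ∀ᶠ n in (UU : Filter ℕ), ∀ x : ℕ, x ≤ f (fun i => rep (v i) n) →
          Q (Fin.cons x fun i => rep (v i) n) := hc
      rw [← Ultrafilter.eventually_not] at hc'
      have hg : ∀ n : ℕ, ∃ g : ℕ, (¬ ∀ x : ℕ, x ≤ f (fun i => rep (v i) n) →
          Q (Fin.cons x fun i => rep (v i) n)) → g ≤ f (fun i => rep (v i) n) ∧
            ¬ Q (Fin.cons g fun i => rep (v i) n) := by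
        intro n
        by_cases hn : ∀ x : ℕ, x ≤ f (fun i => rep (v i) n) → Q (Fin.cons x fun i => rep (v i) n)
        · exact ⟨0, fun h' => absurd hn h'⟩
        · obtain ⟨x, hx⟩ := not_forall.mp hn
          rw [Classical.not_imp] at hx
          exact ⟨x, fun _ => hx⟩
      choose g hg using hg
      have hb : Bddt τ g := by
        refine bdd_of_le (bdd_rep (F v)) ?_
        filter_upwards [hc', e v] with n h1 h2
        rw [h2]
        exact (hg n h1).1
      have hle : mk g hb ≤ F v := by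
        rw [le_iff]
        filter_upwards [hc', e v, rep_mk g hb] with n h1 h2 h3
        rw [h3, h2]
        exact (hg n h1).1
      have h4 := h _ hle
      have h5 : ∀ᶠ n in (UU : Filter ℕ), False := by
        filter_upwards [h4, hc', rep_mk g hb] with n h6 h7 h8
        rw [rep_cons, h8] at h6
        exact (hg n h7).2 h6
      exact h5.exists.choose_spec

end Pool.Agent.BSN.H46
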